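import Pool.Agent.CRT.Stmts

set_option autoImplicit false

namespace Pool.Agent.CRT.H49

open Set Filter Topology MeasureTheory Pool.Agent.CRT

theorem chi_cont (i : Fin 3) : Continuous (chi i) := by
  unfold chi
  fun_prop

theorem chi_nonneg (i : Fin 3) (x : ℝ) : 0 ≤ chi i x := by
  unfold chi; positivity

theorem chi_le (i : Fin 3) (x : ℝ) : chi i x ≤ (1 / 100) ^ 4 := by
  unfold chi
  have h1 : max 0 (((1 : ℝ) / 100) ^ 2 - (x - ce i) ^ 2) ≤ (1 / 100) ^ 2 :=
    max_le (by norm_num) (by nlinarith [sq_nonneg (x - ce i)])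
  have h2 : 0 ≤ max 0 (((1 : ℝ) / 100) ^ 2 - (x - ce i) ^ 2) := le_max_left _ _
  nlinarith

theorem ce_bd (i : Fin 3) : -1 / 2 ≤ ce i ∧ ce i ≤ 1 / 2 := by
  unfold ce
  fin_cases i <;> norm_num

theorem chi_int (i : Fin 3) : 16 / 15 * (1 / 100 : ℝ) ^ 5 ≤ ∫ x in (-1 : ℝ)..1, chi i x := by
  have hc := ce_bd i
  obtain ⟨a, ha⟩ : ∃ a : ℝ, a = ce i - 1 / 100 := ⟨_, rfl⟩
  obtain ⟨b, hb⟩ : ∃ b : ℝ, b = ce i + 1 / 100 := ⟨_, rfl⟩
  have hab : a ≤ b := by rw [ha, hb]; linarith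
  have hi : ∀ u v : ℝ, IntervalIntegrable (chi i) volume u v := fun u v =>
    (chi_cont i).intervalIntegrable u v
  have h1 : ∫ x in a..b, chi i x = 16 / 15 * (1 / 100 : ℝ) ^ 5 := by
    have h2 : ∫ x in a..b, chi i x =
        ∫ x in a..b, (((1 : ℝ) / 100) ^ 2 - (x - ce i) ^ 2) ^ 2 := by
      apply intervalIntegral.integral_congr
      intro x hx
      rw [uIcc_of_le hab, mem_Icc] at hx
      have h3 : 0 ≤ ((1 : ℝ) / 100) ^ 2 - (x - ce i) ^ 2 := by
        have h4 : |x - ce i| ≤ 1 / 100 := by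
          rw [abs_le]; constructor <;> linarith [hx.1, hx.2]
        have h5 := sq_le_sq' (abs_le.mp h4).1 (abs_le.mp h4).2
        linarith
      unfold chi
      rw [max_eq_right h3]
    rw [h2]
    have h3 : ∀ x ∈ uIcc a b, HasDerivAt (fun x : ℝ => (1 / 100 : ℝ) ^ 4 * (x - ce i) -
        2 / 3 * (1 / 100 : ℝ) ^ 2 * (x - ce i) ^ 3 + 1 / 5 * (x - ce i) ^ 5)
        ((((1 : ℝ) / 100) ^ 2 - (x - ce i) ^ 2) ^ 2) x := by
      intro x _
      have h4 : HasDerivAt (fun x : ℝ => x - ce i) 1 x := (hasDerivAt_id x).sub_const _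
      have h5 := ((h4.const_mul ((1 / 100 : ℝ) ^ 4)).sub
        ((h4.pow 3).const_mul (2 / 3 * (1 / 100 : ℝ) ^ 2))).add ((h4.pow 5).const_mul (1 / 5 : ℝ))
      refine h5.congr_deriv ?_
      push_cast
      ring
    rw [intervalIntegral.integral_eq_sub_of_hasDerivAt h3
      (Continuous.intervalIntegrable (by fun_prop) _ _)]
    rw [ha, hb]
    ring
  have h2 : ∫ x in (-1 : ℝ)..1, chi i x =
      (∫ x in (-1 : ℝ)..a, chi i x) + (∫ x in a..b, chi i x) + ∫ x in b..1, chi i x := by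
    rw [intervalIntegral.integral_add_adjacent_intervals (hi _ _) (hi _ _),
      intervalIntegral.integral_add_adjacent_intervals (hi _ _) (hi _ _)]
  have h3 : 0 ≤ ∫ x in (-1 : ℝ)..a, chi i x :=
    intervalIntegral.integral_nonneg (by rw [ha]; linarith) fun x _ => chi_nonneg i x
  have h4 : 0 ≤ ∫ x in b..(1 : ℝ), chi i x :=
    intervalIntegral.integral_nonneg (by rw [hb]; linarith) fun x _ => chi_nonneg i x
  rw [h2, h1]
  linarith

theorem ind_int (i : Fin 3) (E : Set ℝ) (hE : MeasurableSet E)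
    (hv : volume E ≤ ENNReal.ofReal (1 / 2500)) :
    ∫ x in (-1 : ℝ)..1, E.indicator (chi i) x ≤ (1 / 100 : ℝ) ^ 4 * (1 / 2500) := by
  rw [intervalIntegral.integral_of_le (by norm_num), setIntegral_indicator hE]
  have hle : volume (Ioc (-1 : ℝ) 1 ∩ E) ≤ ENNReal.ofReal (1 / 2500) :=
    (measure_mono inter_subset_right).trans hv
  have hlt : volume (Ioc (-1 : ℝ) 1 ∩ E) < ⊤ := lt_of_le_of_lt hle ENNReal.ofReal_lt_top
  have h1 := norm_setIntegral_le_of_norm_le_const (μ := volume) (f := chi i)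
    (C := (1 / 100 : ℝ) ^ 4) hlt (fun x _ => by
      rw [Real.norm_eq_abs, abs_of_nonneg (chi_nonneg i x)]; exact chi_le i x)
  have h2 : (volume : Measure ℝ).real (Ioc (-1 : ℝ) 1 ∩ E) ≤ 1 / 2500 := by
    have h3 := ENNReal.toReal_mono ENNReal.ofReal_ne_top hle
    rwa [ENNReal.toReal_ofReal (by norm_num)] at h3
  calc ∫ x in Ioc (-1 : ℝ) 1 ∩ E, chi i x ≤ ‖∫ x in Ioc (-1 : ℝ) 1 ∩ E, chi i x‖ :=
        Real.le_norm_self _
    _ ≤ _ := h1
    _ ≤ _ := by
        apply mul_le_mul_of_nonneg_left h2 (by positivity)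

theorem ev_cont (d : Co) : Continuous (ev d) := by
  unfold ev; fun_prop

theorem ev_sub (d d' : Co) (x : ℝ) : ev (d - d') x = ev d x - ev d' x := by
  unfold ev
  simp only [Prod.fst_sub, Prod.snd_sub]
  ring

theorem dub (hdua : DuaStmt) (hpsi : PsiStmt) : DubStmt := by
  intro κ m hκ hm
  obtain ⟨c, hc, hD⟩ := hdua κ (1 + 2 * m) hκ (by linarith)
  refine ⟨c * ((1 / 100 : ℝ) ^ 4 * (16 / 1500 - 12 / 2500)), by positivity, ?_⟩
  intro T hT Q P hF hC Q' hQ' i
  classical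
  obtain ⟨hpc, -, -, -⟩ := hpsi κ T hκ (by linarith)
  obtain ⟨E, hE, hgap⟩ := hC
  obtain ⟨n, hn⟩ : ∃ n : ℝ, n = (Q'.card : ℝ) := ⟨_, rfl⟩
  have hn0 : 0 ≤ n := by rw [hn]; positivity
  obtain ⟨V, hV⟩ : ∃ V : ℝ → ℝ, V = fun x => ∑ s ∈ Q', ∑ s' ∈ Q', PS κ T (ev (P s) x - ev (P s') x) :=
    ⟨_, rfl⟩
  have hVc : Continuous V := by
    rw [hV]
    refine continuous_finsetSum _ fun s _ => continuous_finsetSum _ fun s' _ => ?_
    exact hpc.comp ((ev_cont _).sub (ev_cont _))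
  have hsum : ∑ s ∈ Q', ∑ s' ∈ Q', wt i κ T (P s - P s') = ∫ x in (-1 : ℝ)..1, chi i x * V x := by
    have h1 : ∀ x : ℝ, chi i x * V x =
        ∑ s ∈ Q', ∑ s' ∈ Q', chi i x * PS κ T (ev (P s - P s') x) := by
      intro x
      rw [hV]
      simp only [Finset.mul_sum, ev_sub]
    simp only [h1]
    have hcont : ∀ s s' : ℤ × ℤ, Continuous fun x : ℝ => chi i x * PS κ T (ev (P s - P s') x) :=
      fun s s' => (chi_cont i).mul (hpc.comp (ev_cont _))
    rw [intervalIntegral.integral_finsetSum]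
    · refine Finset.sum_congr rfl fun s _ => ?_
      rw [intervalIntegral.integral_finsetSum]
      · rfl
      · intro s' _
        exact (hcont s s').intervalIntegrable _ _
    · intro s _
      exact (continuous_finsetSum _ fun s' _ => hcont s s').intervalIntegrable _ _
  have hYb : ∀ x ∈ Icc (-1 : ℝ) 1, ∀ s ∈ Q', |ev (P s) x| ≤ 1 + 2 * m := by
    intro x hx s hs
    obtain ⟨l, β, γ, hl1, hl2, hβ, hγ, hP, -⟩ := hF s (hQ' hs)
    rw [hP]
    have hx1 : |x| ≤ 1 := abs_le.mpr hx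
    have h1 : ev (l, l * β, l * γ) x = l * (1 + β * x + γ * x ^ 2) := by
      unfold ev; ring
    rw [h1, abs_mul, abs_of_nonneg (by linarith : (0 : ℝ) ≤ l)]
    have h2 : |1 + β * x + γ * x ^ 2| ≤ 1 + m + m := by
      have h3 : |β * x| ≤ m := by
        rw [abs_mul]
        calc |β| * |x| ≤ m * 1 := mul_le_mul hβ hx1 (abs_nonneg _) (by linarith)
          _ = m := mul_one m
      have h4 : |γ * x ^ 2| ≤ m := by
        rw [abs_mul, abs_of_nonneg (sq_nonneg x)]
        have h5 : x ^ 2 ≤ 1 := by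
          rw [← sq_abs]
          nlinarith [abs_nonneg x]
        calc |γ| * x ^ 2 ≤ m * 1 := mul_le_mul hγ h5 (sq_nonneg x) (by linarith)
          _ = m := mul_one m
      calc |1 + β * x + γ * x ^ 2| ≤ |1 + β * x| + |γ * x ^ 2| := abs_add_le _ _
        _ ≤ |(1 : ℝ)| + |β * x| + |γ * x ^ 2| := by
            have := abs_add_le (1 : ℝ) (β * x)
            linarith
        _ ≤ 1 + m + m := by rw [abs_one]; linarith
    calc l * |1 + β * x + γ * x ^ 2| ≤ 1 * (1 + m + m) :=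
          mul_le_mul hl2 h2 (abs_nonneg _) (by norm_num)
      _ = 1 + 2 * m := by ring
  -- pointwise bound
  have hpt : ∀ x ∈ Icc (-1 : ℝ) 1, c * n ^ 2 - 12 * c * n *
      (∑ s ∈ Q', (E s).indicator (fun _ => (1 : ℝ)) x) ≤ V x := by
    intro x hx
    obtain ⟨h1, h2⟩ := hD T hT (ℤ × ℤ) Q' (Q'.filter fun s => x ∉ E s) (fun s => ev (P s) x)
      (Finset.filter_subset _ _) (hYb x hx) (by
        intro s hs s' hs'
        rw [Finset.mem_filter] at hs hs'
        exact hgap x hx s (hQ' hs.1) s' (hQ' hs'.1) hs.2 hs'.2)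
    have hVx : V x = ∑ s ∈ Q', ∑ s' ∈ Q', PS κ T (ev (P s) x - ev (P s') x) := by rw [hV]
    have hcount : (∑ s ∈ Q', (E s).indicator (fun _ => (1 : ℝ)) x) +
        ((Q'.filter fun s => x ∉ E s).card : ℝ) = n := by
      rw [hn, Finset.card_filter, Nat.cast_sum, ← Finset.sum_add_distrib,
        Finset.card_eq_sum_ones, Nat.cast_sum]
      refine Finset.sum_congr rfl fun s _ => ?_
      by_cases hxs : x ∈ E s
      · simp [hxs]
      · simp [hxs]
    obtain ⟨B, hB⟩ : ∃ B : ℝ, B = ∑ s ∈ Q', (E s).indicator (fun _ => (1 : ℝ)) x := ⟨_, rfl⟩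
    rw [← hB] at hcount ⊢
    have hB0 : 0 ≤ B := by
      rw [hB]
      exact Finset.sum_nonneg fun s _ => Set.indicator_nonneg (fun _ _ => zero_le_one) _
    by_cases hb : B ≤ n / 12
    · have h3 := h2 (by rw [← hn]; linarith)
      rw [← hn, ← hVx] at h3
      have h4 : 0 ≤ 12 * c * n * B := by positivity
      linarith
    · push Not at hb
      rw [← hVx] at h1
      have h4 : c * n ^ 2 - 12 * c * n * B ≤ 0 := by
        have h5 : 0 ≤ c * n * (12 * B - n) := by
          apply mul_nonneg (mul_nonneg hc.le hn0); linarith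
        nlinarith
      linarith
  rw [hsum, ← hn]
  have hchi : ∀ u v : ℝ, IntervalIntegrable (chi i) volume u v := fun u v =>
    (chi_cont i).intervalIntegrable u v
  have hind : ∀ s ∈ Q', IntervalIntegrable ((E s).indicator (chi i)) volume (-1) 1 := by
    intro s hs
    rw [intervalIntegrable_iff_integrableOn_Ioc_of_le (by norm_num)]
    have h1 : IntegrableOn (chi i) (Ioc (-1 : ℝ) 1) volume :=
      (intervalIntegrable_iff_integrableOn_Ioc_of_le (by norm_num)).mp (hchi _ _)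
    exact h1.indicator (hE s (hQ' hs)).1
  have hsi : IntervalIntegrable (fun x => ∑ s ∈ Q', (E s).indicator (chi i) x) volume (-1) 1 := by
    have := IntervalIntegrable.sum Q' hind
    refine this.congr ?_
    intro x _
    simp only [Finset.sum_apply]
  have hlow : ∫ x in (-1 : ℝ)..1, (c * n ^ 2 * chi i x - 12 * c * n *
      ∑ s ∈ Q', (E s).indicator (chi i) x) ≤ ∫ x in (-1 : ℝ)..1, chi i x * V x := by
    refine intervalIntegral.integral_mono_on (by norm_num) ?_ ?_ ?_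
    · exact ((hchi _ _).const_mul _).sub (hsi.const_mul _)
    · exact ((chi_cont i).mul hVc).intervalIntegrable _ _
    · intro x hx
      have h1 := mul_le_mul_of_nonneg_left (hpt x hx) (chi_nonneg i x)
      have h2 : ∑ s ∈ Q', (E s).indicator (chi i) x =
          chi i x * ∑ s ∈ Q', (E s).indicator (fun _ => (1 : ℝ)) x := by
        rw [Finset.mul_sum]
        refine Finset.sum_congr rfl fun s _ => ?_
        by_cases hxs : x ∈ E s
        · simp [hxs]
        · simp [hxs]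
      rw [h2]
      calc _ = chi i x * (c * n ^ 2 - 12 * c * n *
            ∑ s ∈ Q', (E s).indicator (fun _ => (1 : ℝ)) x) := by ring
        _ ≤ _ := h1
  refine le_trans ?_ hlow
  rw [intervalIntegral.integral_sub ((hchi _ _).const_mul _) (hsi.const_mul _),
    intervalIntegral.integral_const_mul, intervalIntegral.integral_const_mul,
    intervalIntegral.integral_finsetSum hind]
  have hI1 := chi_int i
  have hI2 : ∑ s ∈ Q', ∫ x in (-1 : ℝ)..1, (E s).indicator (chi i) x ≤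
      n * ((1 / 100 : ℝ) ^ 4 * (1 / 2500)) := by
    calc _ ≤ ∑ s ∈ Q', (1 / 100 : ℝ) ^ 4 * (1 / 2500) :=
          Finset.sum_le_sum fun s hs => ind_int i (E s) (hE s (hQ' hs)).1 (hE s (hQ' hs)).2
      _ = _ := by rw [Finset.sum_const, nsmul_eq_mul, hn]
  have h1 : c * n ^ 2 * (16 / 15 * (1 / 100 : ℝ) ^ 5) ≤
      c * n ^ 2 * ∫ x in (-1 : ℝ)..1, chi i x :=
    mul_le_mul_of_nonneg_left hI1 (by positivity)
  have h2 : 12 * c * n * ∑ s ∈ Q', ∫ x in (-1 : ℝ)..1, (E s).indicator (chi i) x ≤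
      12 * c * n * (n * ((1 / 100 : ℝ) ^ 4 * (1 / 2500))) :=
    mul_le_mul_of_nonneg_left hI2 (by positivity)
  have h3 : c * ((1 / 100 : ℝ) ^ 4 * (16 / 1500 - 12 / 2500)) * n ^ 2 =
      c * n ^ 2 * (16 / 15 * (1 / 100 : ℝ) ^ 5) - 12 * c * n * (n * ((1 / 100 : ℝ) ^ 4 * (1 / 2500))) := by
    ring
  rw [h3]
  linarith

end Pool.Agent.CRT.H49
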