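import Pool.Agent.CRT.Stmts

set_option autoImplicit false

namespace Pool.Agent.CRT.H49

open Set Filter Topology MeasureTheory Pool.Agent.CRT

theorem low : LowStmt := by
  intro ι _ Q w c hc h
  classical
  obtain ⟨L, hLdef⟩ : ∃ L : Fin 3 → Finset ι, L = fun i =>
    Q.filter fun s => ∑ s' ∈ Q, |w i s s'| < c / 4 * (Q.card : ℝ) := ⟨_, rfl⟩
  have hLQ : ∀ i, L i ⊆ Q := by
    intro i; rw [hLdef]; exact Finset.filter_subset _ _
  have hL : ∀ i, ((L i).card : ℝ) ≤ (Q.card : ℝ) / 4 := by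
    intro i
    have h1 := h (L i) (hLQ i) i
    have h2 : ∑ s ∈ L i, ∑ s' ∈ L i, w i s s' ≤ ∑ s ∈ L i, c / 4 * (Q.card : ℝ) := by
      refine Finset.sum_le_sum fun s hs => ?_
      have h3 : ∑ s' ∈ Q, |w i s s'| < c / 4 * (Q.card : ℝ) := by
        rw [hLdef] at hs
        exact (Finset.mem_filter.mp hs).2
      calc ∑ s' ∈ L i, w i s s' ≤ ∑ s' ∈ L i, |w i s s'| :=
            Finset.sum_le_sum fun s' _ => le_abs_self _
        _ ≤ ∑ s' ∈ Q, |w i s s'| :=
            Finset.sum_le_sum_of_subset_of_nonneg (hLQ i) fun _ _ _ => abs_nonneg _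
        _ ≤ c / 4 * (Q.card : ℝ) := h3.le
    rw [Finset.sum_const, nsmul_eq_mul] at h2
    have h4 : c * ((L i).card : ℝ) ^ 2 ≤ ((L i).card : ℝ) * (c / 4 * (Q.card : ℝ)) := h1.trans h2
    rcases Nat.eq_zero_or_pos (L i).card with h0 | h0
    · rw [h0]
      simp only [Nat.cast_zero]
      positivity
    · have h5 : (0 : ℝ) < (L i).card := by exact_mod_cast h0
      have h6 : (c * ((L i).card : ℝ)) * ((L i).card : ℝ) ≤
          (c * ((Q.card : ℝ) / 4)) * ((L i).card : ℝ) := by nlinarith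
      have h7 := le_of_mul_le_mul_right h6 h5
      exact le_of_mul_le_mul_left h7 hc
  refine ⟨Q \ (L 0 ∪ L 1 ∪ L 2), Finset.sdiff_subset, ?_, ?_⟩
  · have h1 : Q.card ≤ (Q \ (L 0 ∪ L 1 ∪ L 2)).card + (L 0 ∪ L 1 ∪ L 2).card := by
      have := Finset.le_card_sdiff (L 0 ∪ L 1 ∪ L 2) Q
      omega
    have h2 : (L 0 ∪ L 1 ∪ L 2).card ≤ (L 0).card + (L 1).card + (L 2).card := by
      have h3 := Finset.card_union_le (L 0 ∪ L 1) (L 2)
      have h4 := Finset.card_union_le (L 0) (L 1)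
      omega
    have h3 : (Q.card : ℝ) ≤ ((Q \ (L 0 ∪ L 1 ∪ L 2)).card : ℝ) + ((L 0).card + (L 1).card +
        (L 2).card) := by
      exact_mod_cast h1.trans (Nat.add_le_add_left h2 _)
    have h4 := hL 0
    have h5 := hL 1
    have h6 := hL 2
    linarith
  · intro s hs i
    rw [Finset.mem_sdiff, Finset.mem_union, Finset.mem_union] at hs
    obtain ⟨hsQ, hs2⟩ := hs
    push Not at hs2
    have h1 : s ∉ L i := by
      fin_cases i
      · exact hs2.1.1
      · exact hs2.1.2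
      · exact hs2.2
    rw [hLdef] at h1
    simp only [Finset.mem_filter, not_and, not_lt] at h1
    exact h1 hsQ

end Pool.Agent.CRT.H49
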